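import Mathlib

/-! A zero-diagonal tridiagonal basis for a totally bipartite Leonard pair that is not an
eigenbasis of either `q`-commutator. -/

set_option autoImplicit false

namespace Pool.Agent.Results.MP_54d771_al.ThirdBasis

open Matrix

section defs
variable {K : Type} [Field K] {n : ℕ}

/-- Irreducible tridiagonal matrices. -/
def IrrTri (M : Matrix (Fin n) (Fin n) K) : Prop :=
  ∀ i j : Fin n, ((i : ℕ) + 1 < j ∨ (j : ℕ) + 1 < i → M i j = 0) ∧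
    ((i : ℕ) + 1 = j ∨ (j : ℕ) + 1 = i → M i j ≠ 0)

/-- Tridiagonal matrices with zero diagonal. -/
def TriZero (M : Matrix (Fin n) (Fin n) K) : Prop :=
  ∀ i j : Fin n, ((i : ℕ) + 1 < j ∨ (j : ℕ) + 1 < i ∨ i = j) → M i j = 0

/-- The matrix of the map `M` in the basis formed by the columns of `P`. -/
def inB (P : (Matrix (Fin n) (Fin n) K)ˣ) (M : Matrix (Fin n) (Fin n) K) :
    Matrix (Fin n) (Fin n) K := P⁻¹.val * M * P.val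

/-- In some basis `A` is diagonal with eigenvalue ratios `r`, and `B` is irreducible tridiagonal
with zero diagonal. -/
def Half (r : K) (A B : Matrix (Fin n) (Fin n) K) : Prop :=
  ∃ P, (inB P A).IsDiag ∧ IrrTri (inB P B) ∧ (∀ i, inB P B i i = 0) ∧
    ∀ i j k l : Fin n, (j : ℕ) = i + 1 → (k : ℕ) = i + 2 → (l : ℕ) = i + 3 →
      (inB P A i i - inB P A l l) / (inB P A j j - inB P A k k) = r

end defs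

abbrev F := QuadraticAlgebra ℚ (-1) 0
instance : Fact (∀ r : ℚ, r ^ 2 ≠ -1 + 0 * r) := ⟨fun r h => by nlinarith [sq_nonneg r]⟩

abbrev Mt := Matrix (Fin 4) (Fin 4) F
def A : Mt := !![21, 0, 0, 0; 0, 4, 0, 0; 0, 0, -4, 0; 0, 0, 0, -21]
def B : Mt := !![0, 21, 0, 0; 4, 0, 17, 0; 0, 17, 0, 4; 0, 0, 21, 0]
def P2 : Mtˣ := ⟨!![1, -21, 21, -1; 1, -4, -4, 1; 1, 4, -4, -1; 1, 21, 21, 1],
  !![⟨2/25, 0⟩, ⟨21/50, 0⟩, ⟨21/50, 0⟩, ⟨2/25, 0⟩; ⟨-1/50, 0⟩, ⟨-1/50, 0⟩, ⟨1/50, 0⟩, ⟨1/50, 0⟩;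
    ⟨1/50, 0⟩, ⟨-1/50, 0⟩, ⟨-1/50, 0⟩, ⟨1/50, 0⟩; ⟨-2/25, 0⟩, ⟨21/50, 0⟩, ⟨-21/50, 0⟩, ⟨2/25, 0⟩],
  by decide +kernel, by decide +kernel⟩
def P3 : Mtˣ := ⟨!![⟨0, 1⟩, ⟨0, 21⟩, ⟨0, -21⟩, ⟨0, -1⟩; ⟨-4, 0⟩, ⟨-16, 0⟩, ⟨-1, 0⟩, ⟨-1/4, 0⟩;
    ⟨0, -4⟩, ⟨0, 16⟩, ⟨0, -1⟩, ⟨0, 1/4⟩; ⟨1, 0⟩, ⟨-21, 0⟩, ⟨-21, 0⟩, ⟨1, 0⟩],
  !![⟨0, -1/170⟩, ⟨-21/170, 0⟩, ⟨0, 21/170⟩, ⟨1/170, 0⟩;
    ⟨0, -1/170⟩, ⟨-2/85, 0⟩, ⟨0, -2/85⟩, ⟨-1/170, 0⟩;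
    ⟨0, 2/85⟩, ⟨-1/170, 0⟩, ⟨0, 1/170⟩, ⟨-2/85, 0⟩;
    ⟨0, 32/85⟩, ⟨-42/85, 0⟩, ⟨0, -42/85⟩, ⟨32/85, 0⟩],
  by decide +kernel, by decide +kernel⟩

instance (M : Mt) : Decidable (IrrTri M) := by unfold IrrTri; infer_instance
instance (M : Mt) : Decidable (TriZero M) := by unfold TriZero; infer_instance
instance (M : Mt) : Decidable M.IsDiag := by unfold IsDiag Pairwise; infer_instance

theorem result : ∃ (K : Type) (_ : Field K) (q : K) (A B : Matrix (Fin 4) (Fin 4) K),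
    q ≠ 0 ∧ (∀ m : ℕ, 0 < m → q ^ m ≠ 1) ∧ Half (q ^ 2 + (q ^ 2)⁻¹ + 1) A B ∧
      Half (q ^ 2 + (q ^ 2)⁻¹ + 1) B A ∧ ∃ P, TriZero (inB P A) ∧ TriZero (inB P B) ∧
        ¬(inB P (q • (A * B) - q⁻¹ • (B * A))).IsDiag ∧
          ¬(inB P (q⁻¹ • (A * B) - q • (B * A))).IsDiag := by
  refine ⟨F, inferInstance, 2, A, B, two_ne_zero, fun m hm h => ?_, ⟨1, by decide +kernel⟩,
    ⟨P2, by decide +kernel⟩, P3, by decide +kernel⟩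
  have : (2 : ℕ) ^ m = 1 := by exact_mod_cast h
  exact (Nat.one_lt_two_pow hm.ne').ne' this

end Pool.Agent.Results.MP_54d771_al.ThirdBasis
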